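import Mathlib
import Pool.Agent.W442.SV.Fin
import Pool.Agent.Y830.SC.Geo

/-!
# Local h-polynomials that are not unimodal in `S_n` for every `n ≥ 10`

The starting result of this repository has one pair in `S_10`.
-/

set_option autoImplicit false

namespace Pool.Agent.Results.MP_ebba11_co.EveryLargeN

open Pool.Agent.W442.SV Pool.Agent.Y830.SC

/-- The coefficients `a 0, ..., a d` of a polynomial of degree `d` are unimodal: there is `k` such
that they increase (weakly) up to the index `k` and decrease (weakly) from the index `k` up to the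
index `d`.  That `i < d` is expressed by a nonzero coefficient of larger index. -/
def Unimodal (a : ℕ → ℤ) : Prop :=
  ∃ k : ℕ, ∀ i : ℕ, (∃ l, i < l ∧ a l ≠ 0) →
    (i < k → a i ≤ a (i + 1)) ∧ (k ≤ i → a (i + 1) ≤ a i)

lemma not_unimodal {a : ℕ → ℤ} (a1 : a 1 = 4) (a2 : a 2 = 3) (a3 : a 3 = 4) : ¬ Unimodal a := by
  rintro ⟨k, hk⟩
  have h3 : a 3 ≠ 0 := by
    rw [a3]
    norm_num
  have h1 := (hk 1 ⟨3, by norm_num, h3⟩).1
  have h2 := (hk 2 ⟨3, by norm_num, h3⟩).2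
  rw [one_add_one_eq_two, a1, a2] at h1
  rw [show (2 + 1 : ℕ) = 3 from rfl, a2, a3] at h2
  rcases lt_or_ge 1 k with h | h
  · exact absurd (h1 h) (by norm_num)
  · exact absurd (h2 (by omega)) (by norm_num)

/-- (1) For all permutations `v`, `w` of `n` points the local h-polynomial of `X_{w ⊕ 1}` at
`e_{v ⊕ 1}` is that of `X_w` at `e_v`, and `v ≤ w` implies `v ⊕ 1 ≤ w ⊕ 1`.  (2) For every `n ≥ 10`
there are `v ≤ w` in `S_n` such that the coefficients of `H_{v,w}` are not unimodal: the first four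
are `1, 4, 3, 4`. -/
theorem result :
    (∀ (n : ℕ) (v w : Equiv.Perm (Fin n)), (BruhatLE v w → BruhatLE (ext1 v) (ext1 w)) ∧
      ∀ i : ℕ, hcoeff (ext1 v) (ext1 w) i = hcoeff v w i) ∧
    ∀ n : ℕ, 10 ≤ n → ∃ v w : Equiv.Perm (Fin n), BruhatLE v w ∧
      (hcoeff v w 0 = 1 ∧ hcoeff v w 1 = 4 ∧ hcoeff v w 2 = 3 ∧ hcoeff v w 3 = 4) ∧
      ¬ Unimodal (hcoeff v w) := by
  refine ⟨fun n v w => ⟨bruhat_ext1, hcoeff_ext1 v w⟩, ?_⟩
  intro n hn
  obtain ⟨v, w, h1, h2⟩ := all_large (fun n v w => hcoeff v w 0 = 1 ∧ hcoeff v w 1 = 4 ∧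
      hcoeff v w 2 = 3 ∧ hcoeff v w 3 = 4) (fun n v w h => by
    show hcoeff (ext1 v) (ext1 w) 0 = 1 ∧ hcoeff (ext1 v) (ext1 w) 1 = 4 ∧
      hcoeff (ext1 v) (ext1 w) 2 = 3 ∧ hcoeff (ext1 v) (ext1 w) 3 = 4
    rw [hcoeff_ext1, hcoeff_ext1, hcoeff_ext1, hcoeff_ext1]
    exact h) 10 ⟨v0, w0, v0_le_w0, hcoeff_zero, hcoeff_one, hcoeff_two, hcoeff_three⟩ n hn
  exact ⟨v, w, h1, h2, not_unimodal h2.2.1 h2.2.2.1 h2.2.2.2⟩

end Pool.Agent.Results.MP_ebba11_co.EveryLargeN
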